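import Mathlib
import Pool.Agent.Helper39.TC.Main

/-!
# Matrices over the prime field: natural number entries, duality
-/

namespace Pool.Agent.LCN

open Finset
open Pool.Agent.Helper39.TC

variable {F : Type} [Field F] [Fintype F]

/-- elements of the prime field are small natural numbers -/
theorem exists_nat {x : F} (hx : x ∈ (⊥ : Subfield F)) :
    ∃ c : ℕ, c ≤ Fintype.card F ∧ (c : F) = x := by
  classical
  obtain ⟨p, hp⟩ := CharP.exists F
  have hprime : p.Prime := CharP.char_is_prime F p
  have : Fact p.Prime := ⟨hprime⟩
  let _ : Algebra (ZMod p) F := ZMod.algebra F p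
  have h1 : (⊥ : Subfield F) ≤ (algebraMap (ZMod p) F).fieldRange := bot_le
  obtain ⟨z, hz⟩ := RingHom.mem_fieldRange.1 (h1 hx)
  refine ⟨z.val, ?_, ?_⟩
  · have h2 : Fintype.card (ZMod p) ≤ Fintype.card F :=
      Fintype.card_le_of_injective _ (algebraMap (ZMod p) F).injective
    rw [ZMod.card] at h2
    exact (ZMod.val_lt z).le.trans h2
  · rw [← hz]
    conv_rhs => rw [← ZMod.natCast_zmod_val z]
    rw [map_natCast]

omit [Fintype F] in
/-- the dual of a matroid over a subfield is a matroid over this subfield -/
theorem dual_subfield [Finite F] (k₀ : Subfield F) {r m : ℕ} (A : Matrix (Fin r) (Fin m) F)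
    (hA : ∀ i j, A i j ∈ k₀) :
    ∃ (r' : ℕ) (A' : Matrix (Fin r') (Fin m) F), (∀ i j, A' i j ∈ k₀) ∧
      rowSpace A' = dual (rowSpace A) := by
  classical
  obtain ⟨A₀, hA₀⟩ : ∃ A₀ : Matrix (Fin r) (Fin m) k₀, ∀ i j, (A₀ i j : F) = A i j :=
    ⟨fun i j => ⟨A i j, hA i j⟩, fun _ _ => rfl⟩
  obtain ⟨P, hP⟩ := exists_rowSpace (dual (rowSpace A₀))
  refine ⟨m, fun i j => (P i j : F), fun i j => (P i j).2, ?_⟩
  refine le_antisymm ?_ ?_
  · unfold rowSpace
    rw [Submodule.span_le]
    rintro _ ⟨i, rfl⟩
    have h1 : P i ∈ dual (rowSpace A₀) := by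
      rw [← hP]
      exact Submodule.subset_span ⟨i, rfl⟩
    show (fun j => (P i j : F)) ∈ dual (rowSpace A)
    have key : ∀ j, ∑ x, A j x * (P i x : F) = 0 := by
      intro j
      have h2 := h1 (A₀ j) (Submodule.subset_span ⟨j, rfl⟩)
      have h3 := congrArg (fun z : k₀ => (z : F)) h2
      simp only [AddSubmonoidClass.coe_finsetSum, Subfield.coe_mul, ZeroMemClass.coe_zero] at h3
      rw [← h3]
      exact Finset.sum_congr rfl fun x _ => by rw [hA₀]
    intro w hw
    unfold rowSpace at hw
    induction hw using Submodule.span_induction with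
    | mem x hx =>
      obtain ⟨j, rfl⟩ := hx
      exact key j
    | zero => simp
    | add x y _ _ hx hy =>
      simp only [Pi.add_apply, add_mul, Finset.sum_add_distrib, hx, hy, add_zero]
    | smul c x _ hx =>
      simp only [Pi.smul_apply, smul_eq_mul, mul_assoc, ← Finset.mul_sum, hx, mul_zero]
  · intro v hv
    have : Finite k₀ := Finite.of_injective (fun z : k₀ => (z : F)) Subtype.val_injective
    have hfd : Module.Finite k₀ F := Module.Finite.of_finite
    let b := Module.finBasis k₀ F
    let cf : Fin (Module.finrank k₀ F) → Fin m → k₀ := fun t j => b.repr (v j) t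
    have h1 : ∀ t, cf t ∈ dual (rowSpace A₀) := by
      intro t w hw
      unfold rowSpace at hw
      induction hw using Submodule.span_induction with
      | mem x hx =>
        obtain ⟨i, rfl⟩ := hx
        have h2 : ∑ j, A i j * v j = 0 := hv (A i) (Submodule.subset_span ⟨i, rfl⟩)
        have h3 : ∑ j, A₀ i j • v j = (0 : F) := by
          rw [← h2]
          refine Finset.sum_congr rfl fun j _ => ?_
          rw [← hA₀]
          rfl
        have h4 := congrArg (fun z => b.repr z t) h3
        simp only [map_sum, map_smul, map_zero] at h4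
        rw [Finsupp.finsetSum_apply] at h4
        simp only [Finsupp.smul_apply, smul_eq_mul, Finsupp.coe_zero, Pi.zero_apply] at h4
        exact h4
      | zero => simp
      | add x y _ _ hx hy =>
        simp only [Pi.add_apply, add_mul, Finset.sum_add_distrib, hx, hy, add_zero]
      | smul c x _ hx =>
        simp only [Pi.smul_apply, smul_eq_mul, mul_assoc, ← Finset.mul_sum, hx, mul_zero]
    have h5 : ∀ w ∈ rowSpace P, (fun j => ((w j : k₀) : F)) ∈
        rowSpace (fun i j => (P i j : F) : Matrix (Fin m) (Fin m) F) := by
      intro w hw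
      unfold rowSpace at hw
      induction hw using Submodule.span_induction with
      | mem x hx =>
        obtain ⟨i, rfl⟩ := hx
        exact Submodule.subset_span ⟨i, rfl⟩
      | zero =>
        have : (fun j => (((0 : Fin m → k₀) j : k₀) : F)) = 0 := by
          funext j
          simp
        rw [this]
        exact Submodule.zero_mem _
      | add x y _ _ hx hy =>
        have : (fun j => (((x + y) j : k₀) : F)) =
            (fun j => ((x j : k₀) : F)) + fun j => ((y j : k₀) : F) := by
          funext j
          simp
        rw [this]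
        exact Submodule.add_mem _ hx hy
      | smul c x _ hx =>
        have : (fun j => (((c • x) j : k₀) : F)) = (c : F) • fun j => ((x j : k₀) : F) := by
          funext j
          simp
        rw [this]
        exact Submodule.smul_mem _ _ hx
    have h6 : v = ∑ t, b t • fun j => ((cf t j : k₀) : F) := by
      funext j
      rw [Finset.sum_apply]
      have h7 := b.sum_repr (v j)
      calc v j = ∑ t, b.repr (v j) t • b t := h7.symm
        _ = _ := by
          refine Finset.sum_congr rfl fun t _ => ?_
          rw [Pi.smul_apply, smul_eq_mul, mul_comm]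
          rfl
    rw [h6]
    refine Submodule.sum_mem _ fun t _ => Submodule.smul_mem _ _ (h5 _ ?_)
    rw [hP]
    exact h1 t

end Pool.Agent.LCN
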