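import Mathlib
import Pool.Agent.Helper39.TC.Core

/-!
# A shattered set of rows with constant pairs contains every matroid over the prime field

The rows `σ (j, b, l)` (blocks `j`, halves `b`); all patterns with the values `x`, `y` are columns.
Contracting the columns of the constant pattern `x` and of the patterns with the value `y` exactly
at one row of the half `true` and at one row of the half `false` of a block leaves the vectors
which are constant on the halves of the blocks and opposite on the two halves.
-/

namespace Pool.Agent.LCN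

open Finset
open Pool.Agent.Helper39.TC

variable {F : Type} [Field F]

/-- The rows: blocks, halves, positions. -/
abbrev Rw (r w : ℕ) : Type := Option (Fin r) × Bool × Fin w

lemma card_lt_fin {w c : ℕ} (h : c ≤ w) :
    ((univ : Finset (Fin w)).filter (fun l => l.val < c)).card = c := by
  have h1 : ((univ : Finset (Fin w)).filter (fun l => l.val < c)).map Fin.valEmbedding =
      Finset.range c := by
    ext k
    simp only [Finset.mem_map, Finset.mem_filter, Finset.mem_univ, true_and,
      Fin.valEmbedding_apply, Finset.mem_range]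
    constructor
    · rintro ⟨l, hl, rfl⟩
      exact hl
    · intro hk
      exact ⟨⟨k, by omega⟩, hk, rfl⟩
  rw [← Finset.card_map Fin.valEmbedding, h1, Finset.card_range]

/-- the opposite values -/
def opv (r w : ℕ) (lam : Option (Fin r) → F) : Rw r w → F :=
  fun i => if i.2.1 then lam i.1 else -lam i.1

/-- number of values `y` in a half of a block -/
def hgt {r : ℕ} (c : Fin r → ℕ) (k : ℕ) (j : Option (Fin r)) (b : Bool) : ℕ :=
  match j with
  | none => k
  | some j => if b then c j else 0

/-- the pattern with `c j` values in the half `true` of the block `j` and `k` values in both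
halves of the last block -/
def pat (r w : ℕ) (c : Fin r → ℕ) (k : ℕ) : Finset (Rw r w) :=
  univ.filter (fun i => i.2.2.val < hgt c k i.1 i.2.1)

lemma mem_pat {r w : ℕ} {c : Fin r → ℕ} {k : ℕ} {i : Rw r w} :
    i ∈ pat r w c k ↔ i.2.2.val < hgt c k i.1 i.2.1 := by simp [pat]

lemma sum_opv (r w : ℕ) (lam : Option (Fin r) → F) : ∑ i, opv r w lam i = 0 := by
  rw [Fintype.sum_prod_type]
  refine Finset.sum_eq_zero fun j _ => ?_
  rw [Fintype.sum_prod_type, Fintype.sum_bool]
  simp [opv]

lemma sum_pat (r w : ℕ) (lam : Option (Fin r) → F) (c : Fin r → ℕ) (k : ℕ)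
    (hc : ∀ j, c j ≤ w) (hk : k ≤ w) :
    ∑ i ∈ pat r w c k, opv r w lam i = ∑ j, (c j : F) * lam (some j) := by
  have key : ∀ (j : Option (Fin r)) (b : Bool), ∑ l : Fin w,
      (if l.val < hgt c k j b then opv r w lam (j, b, l) else 0) =
        (hgt c k j b : F) * (if b then lam j else -lam j) := by
    intro j b
    have e1 : ∀ l : Fin w, (if l.val < hgt c k j b then opv r w lam (j, b, l) else 0) =
        if l.val < hgt c k j b then (if b then lam j else -lam j) else 0 := fun l => rfl
    rw [Finset.sum_congr rfl fun l _ => e1 l, ← Finset.sum_filter, Finset.sum_const,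
      card_lt_fin, nsmul_eq_mul]
    cases j with
    | none => exact hk
    | some j =>
      cases b
      · exact Nat.zero_le _
      · exact hc j
  unfold pat
  rw [Finset.sum_filter, Fintype.sum_prod_type]
  have h1 : ∀ j : Option (Fin r), ∑ y : Bool × Fin w,
      (if ((j, y) : Rw r w).2.2.val < hgt c k ((j, y) : Rw r w).1 ((j, y) : Rw r w).2.1
        then opv r w lam (j, y) else 0) =
      (hgt c k j true : F) * lam j - (hgt c k j false : F) * lam j := by
    intro j
    rw [Fintype.sum_prod_type, Fintype.sum_bool]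
    have e1 := key j true
    have e2 := key j false
    simp only [if_true, Bool.false_eq_true, if_false] at e1 e2
    calc _ = (hgt c k j true : F) * lam j + (hgt c k j false : F) * (-lam j) :=
          congrArg₂ (· + ·) e1 e2
      _ = _ := by ring
  rw [Finset.sum_congr rfl fun j _ => h1 j, Fintype.sum_option]
  simp only [hgt, if_true, Bool.false_eq_true, if_false, Nat.cast_zero, zero_mul, sub_zero,
    sub_self, zero_add]

/-- The extraction: all patterns of two values on the rows `σ` are columns. -/
theorem extract {n : ℕ} (V : Submodule F (Fin n → F)) {κ : Type} [Fintype κ] [DecidableEq κ]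
    (a : κ → Fin n) (u : κ → (Fin n → F)) (_ha : Function.Injective a) (huV : ∀ i, u i ∈ V)
    (hua : ∀ i j, u i (a j) = if i = j then 1 else 0)
    (hw : ∀ w ∈ V, ∀ e, w e = ∑ i, u i e * w (a i))
    {r w m : ℕ} (σ : Rw r w ↪ κ) (x y : F) (hxy : x ≠ y)
    (hpat : ∀ R : Finset (Rw r w), ∃ e, e ∉ Set.range a ∧
      ∀ i, u (σ i) e = if i ∈ R then y else x)
    (c : Fin r → Fin m → ℕ) (hc : ∀ j i, c j i ≤ w) (hm : m + 2 ≤ w) :
    ∃ (f : Fin m ↪ Fin n) (C : Set (Fin n)), (∀ j, f j ∉ C) ∧
      minor V f C = rowSpace (fun j i => (c j i : F)) := by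
  classical
  choose ev hev1 hev2 using hpat
  have hyx : y - x ≠ 0 := sub_ne_zero.2 (Ne.symm hxy)
  -- values at the columns
  have hval : ∀ v ∈ V, (∀ k, k ∉ Set.range σ → v (a k) = 0) → ∀ R : Finset (Rw r w),
      v (ev R) = x * ∑ i, v (a (σ i)) + (y - x) * ∑ i ∈ R, v (a (σ i)) := by
    intro v hv h0 R
    rw [hw v hv (ev R)]
    have h1 : ∑ k, u k (ev R) * v (a k) = ∑ i, u (σ i) (ev R) * v (a (σ i)) := by
      rw [← Finset.sum_map Finset.univ σ (fun k => u k (ev R) * v (a k))]
      symm
      refine Finset.sum_subset (Finset.subset_univ _) fun k _ hk => ?_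
      have : k ∉ Set.range σ := by
        rintro ⟨i, rfl⟩
        exact hk (Finset.mem_map_of_mem _ (Finset.mem_univ i))
      rw [h0 k this, mul_zero]
    rw [h1]
    have h2 : ∀ i, u (σ i) (ev R) * v (a (σ i)) =
        x * v (a (σ i)) + (if i ∈ R then (y - x) * v (a (σ i)) else 0) := by
      intro i
      rw [hev2 R i]
      split_ifs <;> ring
    rw [Finset.sum_congr rfl fun i _ => h2 i, Finset.sum_add_distrib, ← Finset.mul_sum,
      ← Finset.sum_filter, ← Finset.mul_sum]
    simp
  have hev_inj : ∀ R R' : Finset (Rw r w), ev R = ev R' → R = R' := by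
    intro R R' h
    ext i
    have h1 := hev2 R i
    have h2 := hev2 R' i
    rw [h, h2] at h1
    by_cases h3 : i ∈ R <;> by_cases h4 : i ∈ R'
    · simp [h3, h4]
    · rw [if_pos h3, if_neg h4] at h1
      exact absurd h1 hxy
    · rw [if_neg h3, if_pos h4] at h1
      exact absurd h1.symm hxy
    · simp [h3, h4]
  -- the pair patterns
  let pr : Option (Fin r) → Fin w → Fin w → Finset (Rw r w) := fun j l l' =>
    {(j, true, l), (j, false, l')}
  have hw2 : 2 ≤ w := by omega
  let tgt : Fin m → Finset (Rw r w) := fun i => pat r w (fun j => c j i) (i.val + 2)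
  have ht_empty : ∀ i, tgt i ≠ ∅ := by
    intro i h
    have : ((none, true, (⟨0, by omega⟩ : Fin w)) : Rw r w) ∈ tgt i :=
      mem_pat.2 (show 0 < i.val + 2 by omega)
    rw [h] at this
    exact absurd this (Finset.notMem_empty _)
  have ht_pr : ∀ i j l l', tgt i ≠ pr j l l' := by
    intro i j l l' h
    have h0 : ((none, true, (⟨0, by omega⟩ : Fin w)) : Rw r w) ∈ tgt i :=
      mem_pat.2 (show 0 < i.val + 2 by omega)
    have h1 : ((none, true, (⟨1, by omega⟩ : Fin w)) : Rw r w) ∈ tgt i :=
      mem_pat.2 (show 1 < i.val + 2 by omega)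
    rw [h] at h0 h1
    simp only [pr, Finset.mem_insert, Finset.mem_singleton, Prod.mk.injEq, Bool.true_eq_false,
      false_and, and_false, or_false, true_and] at h0 h1
    have h2 := h0.2.trans h1.2.symm
    have h3 := congrArg Fin.val h2
    simp at h3
  have ht_inj : ∀ i i', tgt i = tgt i' → i = i' := by
    have aux : ∀ i i' : Fin m, i.val < i'.val → tgt i ≠ tgt i' := by
      intro i i' hlt h
      have h0 : ((none, true, (⟨i.val + 2, by omega⟩ : Fin w)) : Rw r w) ∈ tgt i' :=
        mem_pat.2 (show i.val + 2 < i'.val + 2 by omega)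
      rw [← h] at h0
      have h1 : i.val + 2 < i.val + 2 := mem_pat.1 h0
      omega
    intro i i' h
    rcases lt_trichotomy i.val i'.val with h1 | h1 | h1
    · exact absurd h (aux i i' h1)
    · exact Fin.ext h1
    · exact absurd h.symm (aux i' i h1)
  let f : Fin m ↪ Fin n := ⟨fun i => ev (tgt i), fun i i' h => ht_inj _ _ (hev_inj _ _ h)⟩
  have hf : ∀ i, f i = ev (tgt i) := fun _ => rfl
  let C : Set (Fin n) := {e | (∃ k, k ∉ Set.range σ ∧ e = a k) ∨ e = ev ∅ ∨
    ∃ j l l', e = ev (pr j l l')}
  have hfC : ∀ i, f i ∉ C := by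
    rintro i (⟨k, _, h⟩ | h | ⟨j, l, l', h⟩)
    · exact hev1 (tgt i) ⟨k, by rw [← hf i, h]⟩
    · exact ht_empty i (hev_inj _ _ h)
    · exact ht_pr i j l l' (hev_inj _ _ h)
  have hcw : ∀ i j, (fun j => c j i) j ≤ w := fun i j => hc j i
  refine ⟨f, C, hfC, ?_⟩
  ext g
  constructor
  · rintro ⟨v, hv, h1, h2⟩
    have hv0 : ∀ k, k ∉ Set.range σ → v (a k) = 0 := fun k hk => h1 _ (Or.inl ⟨k, hk, rfl⟩)
    obtain ⟨z, hz⟩ : ∃ z : Rw r w → F, z = fun i => v (a (σ i)) := ⟨_, rfl⟩
    have hzi : ∀ i, v (a (σ i)) = z i := fun i => by rw [hz]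
    have hval' : ∀ R : Finset (Rw r w), v (ev R) = x * ∑ i, z i + (y - x) * ∑ i ∈ R, z i := by
      intro R
      rw [hval v hv hv0 R, hz]
    have e0 : x * ∑ i, z i = 0 := by
      have h3 := h1 (ev ∅) (Or.inr (Or.inl rfl))
      rw [hval' ∅] at h3
      simpa using h3
    have epr : ∀ j l l', z (j, true, l) + z (j, false, l') = 0 := by
      intro j l l'
      have h3 := h1 (ev (pr j l l')) (Or.inr (Or.inr ⟨j, l, l', rfl⟩))
      rw [hval' (pr j l l'), e0, zero_add] at h3
      have h4 : ∑ i ∈ pr j l l', z i = z (j, true, l) + z (j, false, l') := by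
        rw [Finset.sum_pair]
        simp
      rw [h4] at h3
      exact (mul_eq_zero.1 h3).resolve_left hyx
    obtain ⟨lam, hlam⟩ : ∃ lam : Option (Fin r) → F,
        lam = fun j => z (j, true, ⟨0, by omega⟩) := ⟨_, rfl⟩
    have hz' : z = opv r w lam := by
      funext i
      obtain ⟨j, b, l⟩ := i
      have h3 := epr j ⟨0, by omega⟩ l
      have h4 := epr j l ⟨0, by omega⟩
      have h5 := epr j ⟨0, by omega⟩ ⟨0, by omega⟩
      cases b
      · show z (j, false, l) = -lam j
        rw [hlam]
        linear_combination h3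
      · show z (j, true, l) = lam j
        rw [hlam]
        linear_combination h4 - h5
    have h6 : ∀ i, g i = ∑ j, (c j i : F) * ((y - x) * lam (some j)) := by
      intro i
      rw [h2 i, hf i, hval' (tgt i), e0, zero_add, hz', sum_pat r w lam _ _ (hcw i) (by omega),
        Finset.mul_sum]
      refine Finset.sum_congr rfl fun j _ => ?_
      ring
    have h7 : g = ∑ j, ((y - x) * lam (some j)) • (fun i => (c j i : F)) := by
      funext i
      rw [h6 i, Finset.sum_apply]
      refine Finset.sum_congr rfl fun j _ => ?_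
      simp only [Pi.smul_apply, smul_eq_mul]
      ring
    rw [h7]
    unfold rowSpace
    exact Submodule.sum_mem _ fun j _ => Submodule.smul_mem _ _ (Submodule.subset_span ⟨j, rfl⟩)
  · intro hg
    have hle : rowSpace (fun j i => (c j i : F)) ≤ minor V f C := by
      unfold rowSpace
      rw [Submodule.span_le]
      rintro _ ⟨j₀, rfl⟩
      obtain ⟨lam, hlam⟩ : ∃ lam : Option (Fin r) → F,
        lam = fun j => if j = some j₀ then (y - x)⁻¹ else 0 := ⟨_, rfl⟩
      obtain ⟨v, hv⟩ : ∃ v : Fin n → F, v = ∑ i, opv r w lam i • u (σ i) := ⟨_, rfl⟩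
      have hvV : v ∈ V := by
        rw [hv]
        exact Submodule.sum_mem _ fun i _ => Submodule.smul_mem _ _ (huV _)
      have hva : ∀ k, v (a k) = ∑ i, opv r w lam i * (if σ i = k then 1 else 0) := by
        intro k
        rw [hv, Finset.sum_apply]
        refine Finset.sum_congr rfl fun i _ => ?_
        rw [Pi.smul_apply, smul_eq_mul, hua]
      have hv0 : ∀ k, k ∉ Set.range σ → v (a k) = 0 := by
        intro k hk
        rw [hva k]
        refine Finset.sum_eq_zero fun i _ => ?_
        rw [if_neg (fun h => hk ⟨i, h⟩), mul_zero]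
      have hvz : ∀ i, v (a (σ i)) = opv r w lam i := by
        intro i
        rw [hva (σ i), Finset.sum_eq_single i]
        · rw [if_pos rfl, mul_one]
        · intro i' _ h
          rw [if_neg (fun h' => h (σ.injective h')), mul_zero]
        · intro h
          exact absurd (Finset.mem_univ i) h
      have hval' : ∀ R : Finset (Rw r w), v (ev R) = (y - x) * ∑ i ∈ R, opv r w lam i := by
        intro R
        rw [hval v hvV hv0 R]
        simp only [hvz]
        rw [sum_opv, mul_zero, zero_add]
      refine ⟨v, hvV, ?_, ?_⟩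
      · rintro e (⟨k, hk, rfl⟩ | rfl | ⟨j, l, l', rfl⟩)
        · exact hv0 k hk
        · rw [hval' ∅, Finset.sum_empty, mul_zero]
        · rw [hval' (pr j l l')]
          have h4 : ∑ i ∈ pr j l l', opv r w lam i = 0 := by
            rw [Finset.sum_pair (by simp)]
            simp [opv]
          rw [h4, mul_zero]
      · intro i
        rw [hf i, hval' (tgt i), sum_pat r w lam _ _ (hcw i) (by omega)]
        have h5 : ∑ j, (c j i : F) * lam (some j) = (c j₀ i : F) * (y - x)⁻¹ := by
          rw [Finset.sum_eq_single j₀]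
          · rw [hlam]
            simp
          · intro j _ h
            rw [hlam]
            simp [h]
          · intro h
            exact absurd (Finset.mem_univ _) h
        rw [h5, mul_left_comm, mul_inv_cancel₀ hyx, mul_one]
    exact hle hg

end Pool.Agent.LCN
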