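import Mathlib
import Pool.Agent.Helper39.TC.Code

/-!
# Natarajan's lemma: families of functions without shattered sets have polynomially many traces
-/

namespace Pool.Agent.LCN

open Finset
open Pool.Agent.Helper39.TC (res)

variable {κ F : Type} [Fintype κ] [DecidableEq κ] [Field F] [Fintype F] [DecidableEq F]

/-- `S` is shattered by `C` with the pairs `a s ≠ b s`. -/
def NSh (C : Finset (κ → F)) (S : Finset κ) (a b : κ → F) : Prop :=
  (∀ s ∈ S, a s ≠ b s) ∧ ∀ T ⊆ S, ∃ u ∈ C, ∀ s ∈ S, u s = if s ∈ T then b s else a s

omit [Fintype F] in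
lemma res_idem {T T' : Finset κ} (h : T' ⊆ T) (u : κ → F) : res T' (res T u) = res T' u := by
  funext i
  by_cases hi : i ∈ T'
  · simp [res, hi, h hi]
  · simp [res, hi]

omit [Fintype F] in
lemma res_insert (T : Finset κ) (x : κ) (u : κ → F) :
    res (insert x T) u = Function.update (res T u) x (u x) := by
  funext i
  by_cases hi : i = x
  · subst hi
    simp [res]
  · rw [Function.update_of_ne hi]
    simp [res, hi]

/-- The functions on `T` which have both extensions. -/
def both (C : Finset (κ → F)) (T : Finset κ) (x : κ) (p : F × F) : Finset (κ → F) :=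
  (C.image (res T)).filter (fun h =>
    Function.update h x p.1 ∈ C.image (res (insert x T)) ∧
      Function.update h x p.2 ∈ C.image (res (insert x T)))

omit [Fintype F] in
lemma NSh_lift {C : Finset (κ → F)} {T S : Finset κ} {x : κ} (hx : x ∉ T) (hS : S ⊆ T)
    {p : F × F} (hp : p.1 ≠ p.2) {a b : κ → F} (h : NSh (both C T x p) S a b) :
    NSh C (insert x S) (Function.update a x p.1) (Function.update b x p.2) := by
  have hxS : x ∉ S := fun h => hx (hS h)
  have hne : ∀ s ∈ S, s ≠ x := fun s hs h => hxS (h ▸ hs)
  refine ⟨?_, ?_⟩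
  · intro s hs
    rcases Finset.mem_insert.1 hs with rfl | hs
    · simpa using hp
    · rw [Function.update_of_ne (hne s hs), Function.update_of_ne (hne s hs)]
      exact h.1 s hs
  · intro R hR
    obtain ⟨g, hg, hgs⟩ := h.2 (R ∩ S) Finset.inter_subset_right
    obtain ⟨hg1, hg2, hg3⟩ := Finset.mem_filter.1 hg
    have key : ∀ c : F, Function.update g x c ∈ C.image (res (insert x T)) →
        ∃ u ∈ C, (∀ s ∈ S, u s = g s) ∧ u x = c := by
      intro c hc
      obtain ⟨u, hu, hu2⟩ := Finset.mem_image.1 hc
      refine ⟨u, hu, ?_, ?_⟩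
      · intro s hs
        have h1 := congrFun hu2 s
        rw [Function.update_of_ne (hne s hs)] at h1
        rw [← h1]
        simp [res, hS hs]
      · have h1 := congrFun hu2 x
        rw [Function.update_self] at h1
        rw [← h1]
        simp [res]
    by_cases hxR : x ∈ R
    · obtain ⟨u, hu, hu1, hu2⟩ := key p.2 hg3
      refine ⟨u, hu, ?_⟩
      intro s hs
      rcases Finset.mem_insert.1 hs with rfl | hs
      · simp [hxR, hu2]
      · rw [Function.update_of_ne (hne s hs), Function.update_of_ne (hne s hs), hu1 s hs, hgs s hs]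
        by_cases hsR : s ∈ R
        · simp [hsR, hs]
        · simp [hsR]
    · obtain ⟨u, hu, hu1, hu2⟩ := key p.1 hg2
      refine ⟨u, hu, ?_⟩
      intro s hs
      rcases Finset.mem_insert.1 hs with rfl | hs
      · simp [hxR, hu2]
      · rw [Function.update_of_ne (hne s hs), Function.update_of_ne (hne s hs), hu1 s hs, hgs s hs]
        by_cases hsR : s ∈ R
        · simp [hsR, hs]
        · simp [hsR]

lemma card_fibre (C : Finset (κ → F)) (T : Finset κ) (x : κ) :
    (C.image (res (insert x T))).card ≤ (C.image (res T)).card +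
      ∑ p ∈ (univ : Finset F).offDiag, (both C T x p).card := by
  classical
  set G := C.image (res (insert x T)) with hG
  set G' := C.image (res T) with hG'
  -- values
  let vals : (κ → F) → Finset F := fun h => univ.filter (fun c => Function.update h x c ∈ G)
  have h1 : G.card ≤ ∑ h ∈ G', (vals h).card := by
    have hsub : G ⊆ G'.biUnion (fun h => (vals h).image (fun c => Function.update h x c)) := by
      intro g hg
      obtain ⟨u, hu, rfl⟩ := Finset.mem_image.1 hg
      refine Finset.mem_biUnion.2 ⟨res T u, Finset.mem_image_of_mem _ hu, ?_⟩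
      refine Finset.mem_image.2 ⟨u x, ?_, (res_insert T x u).symm⟩
      refine Finset.mem_filter.2 ⟨Finset.mem_univ _, ?_⟩
      rw [← res_insert]
      exact hg
    refine (Finset.card_le_card hsub).trans (Finset.card_biUnion_le.trans ?_)
    exact Finset.sum_le_sum fun h _ => Finset.card_image_le
  have h2 : ∀ h ∈ G', (vals h).card ≤ 1 + ((vals h).offDiag).card := by
    intro h _
    rw [Finset.offDiag_card]
    obtain ⟨v, hv⟩ : ∃ v, v = (vals h).card := ⟨_, rfl⟩
    rw [← hv]
    rcases Nat.lt_or_ge v 2 with h3 | h3
    · omega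
    · have : v * 2 ≤ v * v := Nat.mul_le_mul_left _ h3
      omega
  have h3 : ∑ h ∈ G', ((vals h).offDiag).card =
      ∑ p ∈ (univ : Finset F).offDiag, (both C T x p).card := by
    have e1 : ∀ h ∈ G', ((vals h).offDiag).card = ∑ p ∈ (univ : Finset F).offDiag,
        if (Function.update h x p.1 ∈ G ∧ Function.update h x p.2 ∈ G) then 1 else 0 := by
      intro h _
      rw [← Finset.sum_filter, ← Finset.card_eq_sum_ones]
      congr 1
      ext p
      simp only [Finset.mem_offDiag, Finset.mem_filter, Finset.mem_univ, true_and, vals]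
      tauto
    rw [Finset.sum_congr rfl e1, Finset.sum_comm]
    refine Finset.sum_congr rfl fun p _ => ?_
    rw [← Finset.sum_filter, ← Finset.card_eq_sum_ones]
    rfl
  calc G.card ≤ ∑ h ∈ G', (vals h).card := h1
    _ ≤ ∑ h ∈ G', (1 + ((vals h).offDiag).card) := Finset.sum_le_sum h2
    _ = G'.card + ∑ h ∈ G', ((vals h).offDiag).card := by
        rw [Finset.sum_add_distrib, Finset.card_eq_sum_ones]
    _ = _ := by rw [h3]

/-- Natarajan's lemma (weak form). -/
theorem natarajan (d : ℕ) : ∀ (T : Finset κ) (C : Finset (κ → F)),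
    (∀ S ⊆ T, S.card = d → ∀ a b, ¬ NSh C S a b) →
    (C.image (res T)).card ≤ (Fintype.card F ^ 2 * (T.card + 1)) ^ d := by
  induction d with
  | zero =>
    intro T C h
    have hC : C = ∅ := by
      by_contra hne
      obtain ⟨u, hu⟩ := Finset.nonempty_iff_ne_empty.2 hne
      refine h ∅ (Finset.empty_subset _) rfl 0 0 ⟨fun s hs => absurd hs (Finset.notMem_empty _), ?_⟩
      intro R _
      exact ⟨u, hu, fun s hs => absurd hs (Finset.notMem_empty _)⟩
    rw [hC]
    simp
  | succ d ihd =>
    intro T
    induction T using Finset.induction_on with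
    | empty =>
      intro C _
      have h1 : (C.image (res ∅)).card ≤ 1 := by
        refine Finset.card_le_one.2 ?_
        intro a ha b hb
        obtain ⟨u, _, rfl⟩ := Finset.mem_image.1 ha
        obtain ⟨v, _, rfl⟩ := Finset.mem_image.1 hb
        funext i
        simp [res]
      have hq : 0 < Fintype.card F := Fintype.card_pos
      have h2 : 0 < (Fintype.card F ^ 2 * ((∅ : Finset κ).card + 1)) ^ (d + 1) := by positivity
      omega
    | insert x T hx ih =>
      intro C h
      set q := Fintype.card F with hq
      have h1 : (C.image (res T)).card ≤ (q ^ 2 * (T.card + 1)) ^ (d + 1) :=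
        ih C fun S hS hc a b => h S (hS.trans (Finset.subset_insert x T)) hc a b
      have h2 : ∀ p ∈ (univ : Finset F).offDiag,
          (both C T x p).card ≤ (q ^ 2 * (T.card + 1)) ^ d := by
        intro p hp
        obtain ⟨_, _, hp⟩ := Finset.mem_offDiag.1 hp
        have h3 := ihd T (both C T x p) (by
          intro S hS hc a b hab
          refine h (insert x S) (Finset.insert_subset_insert x hS) ?_ _ _
            (NSh_lift hx hS hp hab)
          rw [Finset.card_insert_of_notMem (fun h => hx (hS h)), hc])
        have h4 : (both C T x p).image (res T) = both C T x p := by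
          ext g
          constructor
          · intro hg
            obtain ⟨g', hg', rfl⟩ := Finset.mem_image.1 hg
            have : res T g' = g' := by
              obtain ⟨u, _, hu⟩ := Finset.mem_image.1 (Finset.mem_filter.1 hg').1
              rw [← hu]
              exact res_idem (Finset.Subset.refl T) u
            rw [this]
            exact hg'
          · intro hg
            refine Finset.mem_image.2 ⟨g, hg, ?_⟩
            obtain ⟨u, _, hu⟩ := Finset.mem_image.1 (Finset.mem_filter.1 hg).1
            rw [← hu]
            exact res_idem (Finset.Subset.refl T) u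
        rw [h4] at h3
        exact h3
      have h5 : ((univ : Finset F).offDiag).card ≤ q ^ 2 := by
        rw [Finset.offDiag_card, Finset.card_univ, ← hq, sq]
        exact Nat.sub_le _ _
      have h6 := card_fibre C T x
      have h7 : ∑ p ∈ (univ : Finset F).offDiag, (both C T x p).card ≤
          q ^ 2 * (q ^ 2 * (T.card + 1)) ^ d := by
        refine (Finset.sum_le_card_nsmul _ _ _ h2).trans ?_
        rw [smul_eq_mul]
        exact Nat.mul_le_mul_right _ h5
      rw [Finset.card_insert_of_notMem hx]
      set m := T.card with hm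
      have h8 : (q ^ 2 * (m + 1)) ^ (d + 1) + q ^ 2 * (q ^ 2 * (m + 1)) ^ d ≤
          (q ^ 2 * (m + 1 + 1)) ^ (d + 1) := by
        have e1 : (q ^ 2 * (m + 1)) ^ (d + 1) + q ^ 2 * (q ^ 2 * (m + 1)) ^ d =
            (q ^ 2 * (m + 1 + 1)) * (q ^ 2 * (m + 1)) ^ d := by ring
        rw [e1, pow_succ, mul_comm]
        refine Nat.mul_le_mul_right _ (Nat.pow_le_pow_left ?_ d)
        exact Nat.mul_le_mul_left _ (by omega)
      calc _ ≤ (C.image (res T)).card + ∑ p ∈ (univ : Finset F).offDiag, (both C T x p).card := h6
        _ ≤ (q ^ 2 * (m + 1)) ^ (d + 1) + q ^ 2 * (q ^ 2 * (m + 1)) ^ d := Nat.add_le_add h1 h7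
        _ ≤ _ := h8

end Pool.Agent.LCN
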