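import Mathlib
import Pool.Agent.Helper39.TC.Code

/-!
# Codes with polynomially many traces: Haussler's packing lemma
-/

namespace Pool.Agent.LCN

open Finset
open Pool.Agent.Helper39.TC (res gr tr card_tr_le dist_le packing gr_injective)

/-- exponentials beat polynomials -/
theorem exists_vc (Q d : ℕ) : ∃ D : ℕ, ∀ m : ℕ, 2 ^ m ≤ (Q * (m + 1)) ^ d → m ≤ D := by
  have h := tendsto_pow_const_div_const_pow_of_one_lt d (one_lt_two : (1 : ℝ) < 2)
  have hc : (0 : ℝ) < 1 / (2 * ((Q : ℝ) ^ d + 1)) := by positivity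
  have h1 := (h.eventually (gt_mem_nhds hc)).and (Filter.eventually_ge_atTop 0)
  obtain ⟨N, hN⟩ := Filter.eventually_atTop.1 h1
  refine ⟨N, fun m hm => ?_⟩
  by_contra hlt
  push Not at hlt
  have h2 := (hN (m + 1) (by omega)).1
  rw [div_lt_div_iff₀ (by positivity) (by positivity)] at h2
  have h3 : ((2 : ℝ)) ^ m ≤ (Q * ((m : ℝ) + 1)) ^ d := by exact_mod_cast hm
  rw [mul_pow] at h3
  push_cast at h2
  have h4 : (0 : ℝ) ≤ ((m : ℝ) + 1) ^ d := by positivity
  rw [pow_succ] at h2
  nlinarith

/-- Codes with distance `δ` and polynomially many traces. -/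
theorem code_poly (q d : ℕ) : ∃ K : ℕ, ∀ (κ F : Type) [Fintype κ] [DecidableEq κ] [Field F]
    [Fintype F] [DecidableEq F] (C : Finset (κ → F)) (δ : ℕ), Fintype.card F = q → 1 ≤ δ →
    δ ≤ Fintype.card κ →
    (∀ T : Finset κ, (C.image (res T)).card ≤ (q ^ 2 * (T.card + 1)) ^ d) →
    (∀ u ∈ C, ∀ v ∈ C, u ≠ v → δ ≤ (univ.filter (fun i => u i ≠ v i)).card) →
    C.card * δ ^ d ≤ K * Fintype.card κ ^ d := by
  obtain ⟨D, hD⟩ := exists_vc (q ^ 2) d
  refine ⟨2 * (q ^ 2 * (4 * D * q + 1)) ^ d + (q ^ 2 * 2 * (8 * D + 1)) ^ d, ?_⟩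
  intro κ F _ _ _ _ _ C δ hq hδ hδr hres hdist
  set r := Fintype.card κ with hr
  have hr1 : 1 ≤ r := hδ.trans hδr
  have hq2 : 2 ≤ q := by
    rw [← hq]
    exact Fintype.one_lt_card
  rcases Nat.lt_or_ge δ (8 * D + 1) with hlt | hge
  · -- small distance
    have h1 : C.card ≤ (q ^ 2 * (r + 1)) ^ d := by
      have h2 := hres univ
      have h3 : C.image (res (univ : Finset κ)) = C := by
        ext g
        constructor
        · intro hg
          obtain ⟨u, hu, rfl⟩ := Finset.mem_image.1 hg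
          have : res (univ : Finset κ) u = u := by
            funext i
            simp [res]
          rw [this]
          exact hu
        · intro hg
          refine Finset.mem_image.2 ⟨g, hg, ?_⟩
          funext i
          simp [res]
      rw [h3, Finset.card_univ, ← hr] at h2
      exact h2
    calc C.card * δ ^ d ≤ (q ^ 2 * (r + 1)) ^ d * (8 * D + 1) ^ d :=
          Nat.mul_le_mul h1 (Nat.pow_le_pow_left (by omega) d)
      _ = (q ^ 2 * (r + 1) * (8 * D + 1)) ^ d := by rw [← mul_pow]
      _ ≤ (q ^ 2 * 2 * (8 * D + 1) * r) ^ d := by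
          refine Nat.pow_le_pow_left ?_ d
          have : r + 1 ≤ 2 * r := by omega
          calc q ^ 2 * (r + 1) * (8 * D + 1) ≤ q ^ 2 * (2 * r) * (8 * D + 1) := by gcongr
            _ = _ := by ring
      _ = (q ^ 2 * 2 * (8 * D + 1)) ^ d * r ^ d := mul_pow _ _ _
      _ ≤ _ := Nat.mul_le_mul_right _ (Nat.le_add_left _ _)
  · set N := Fintype.card (κ × F) with hN
    have hNr : N = r * q := by rw [hN, Fintype.card_prod, hq]
    set t := 4 * D * N / δ with ht
    have htδ : t * δ ≤ 4 * D * N := Nat.div_mul_le_self _ _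
    have htδ2 : 4 * D * N ≤ (t + 1) * δ := by
      rw [ht]
      have h2 := Nat.lt_mul_div_succ (4 * D * N) hδ
      rw [mul_comm (4 * D * N / δ + 1) δ]
      exact h2.le
    have hN2 : 2 ≤ N := by
      rw [hNr]
      nlinarith
    have htN : t + 1 ≤ N := by
      have h1 : t * (8 * D + 1) ≤ 4 * D * N := (Nat.mul_le_mul_left _ hge).trans htδ
      by_contra hcon
      push Not at hcon
      have h2 : N * (8 * D + 1) ≤ t * (8 * D + 1) := Nat.mul_le_mul_right _ (by omega)
      nlinarith
    have hVC : ∀ s, (C.image gr).Shatters s → s.card ≤ D := by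
      intro s hs
      refine hD s.card ?_
      have h1 : (tr (C.image gr) s).card = 2 ^ s.card := by
        rw [← Finset.card_powerset, ← Finset.shatters_iff.1 hs]
        unfold tr
        congr 1
        refine Finset.image_congr fun S _ => ?_
        exact Finset.inter_comm _ _
      rw [← h1]
      calc _ ≤ _ := card_tr_le C s
        _ ≤ (q ^ 2 * ((s.image Prod.fst).card + 1)) ^ d := hres _
        _ ≤ _ := by
          have : (s.image Prod.fst).card ≤ s.card := Finset.card_image_le
          gcongr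
    have main := packing (C.image gr) D t δ ((q ^ 2 * (t + 1)) ^ d) htN hVC ?_ ?_ htδ2 hδ
    · rw [Finset.card_image_of_injective _ gr_injective] at main
      have h1 : (t + 1) * δ ≤ (4 * D * q + 1) * r := by
        calc (t + 1) * δ = t * δ + δ := by ring
          _ ≤ 4 * D * N + r := Nat.add_le_add htδ hδr
          _ = _ := by rw [hNr]; ring
      calc C.card * δ ^ d ≤ (2 * (q ^ 2 * (t + 1)) ^ d) * δ ^ d := Nat.mul_le_mul_right _ main
        _ = 2 * (q ^ 2 * ((t + 1) * δ)) ^ d := by
            rw [mul_assoc, ← mul_pow, mul_assoc (q ^ 2)]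
        _ ≤ 2 * (q ^ 2 * ((4 * D * q + 1) * r)) ^ d := by gcongr
        _ = 2 * (q ^ 2 * (4 * D * q + 1)) ^ d * r ^ d := by
            rw [show q ^ 2 * ((4 * D * q + 1) * r) = (q ^ 2 * (4 * D * q + 1)) * r by ring,
              mul_pow, ← mul_assoc]
        _ ≤ _ := Nat.mul_le_mul_right _ (Nat.le_add_right _ _)
    · intro S hS T hT hST
      obtain ⟨u, hu, rfl⟩ := Finset.mem_image.1 hS
      obtain ⟨v, hv, rfl⟩ := Finset.mem_image.1 hT
      exact (hdist u hu v hv (fun h => hST (by rw [h]))).trans (dist_le u v)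
    · intro A hA
      calc _ ≤ _ := card_tr_le C A
        _ ≤ (q ^ 2 * ((A.image Prod.fst).card + 1)) ^ d := hres _
        _ ≤ _ := by
          have : (A.image Prod.fst).card ≤ t := hA ▸ Finset.card_image_le
          gcongr

end Pool.Agent.LCN
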