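import Mathlib
import Pool.Agent.LCN.Nat
import Pool.Agent.LCN.Pk
import Pool.Agent.LCN.Ext

/-!
# Represented matroids of large girth without a given minor over the prime field
-/

namespace Pool.Agent.LCN

open Finset
open Pool.Agent.Helper39.TC

variable {F : Type} [Field F] [Fintype F] [DecidableEq F]

theorem traces {n : ℕ} (V : Submodule F (Fin n → F)) {κ : Type} [Fintype κ] [DecidableEq κ]
    (a : κ → Fin n) (u : κ → (Fin n → F)) (ha : Function.Injective a) (huV : ∀ i, u i ∈ V)
    (hua : ∀ i j, u i (a j) = if i = j then 1 else 0)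
    (hw : ∀ w ∈ V, ∀ e, w e = ∑ i, u i e * w (a i))
    {r w m : ℕ} (c : Fin r → Fin m → ℕ) (hc : ∀ j i, c j i ≤ w) (hm : m + 2 ≤ w)
    (hno : ∀ (f : Fin m ↪ Fin n) (C : Set (Fin n)), (∀ j, f j ∉ C) →
      minor V f C ≠ rowSpace (fun j i => (c j i : F)))
    (E : Finset (Fin n)) (hE : ∀ e ∈ E, e ∉ Set.range a) (T : Finset κ) :
    ((E.image (fun e i => u i e)).image (res T)).card ≤
      (Fintype.card F ^ 2 * (T.card + 1)) ^ (Fintype.card (Rw r w) * Fintype.card F ^ 2) := by
  classical
  refine natarajan _ T _ ?_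
  intro S _ hS a' b' hsh
  -- pigeonhole
  obtain ⟨p, _, hp⟩ := Finset.exists_le_card_fiber_of_mul_le_card_of_maps_to
    (s := S) (t := (univ : Finset (F × F))) (f := fun s => (a' s, b' s))
    (n := Fintype.card (Rw r w)) (fun _ _ => Finset.mem_univ _) ⟨(0, 0), Finset.mem_univ _⟩ (by
      rw [Finset.card_univ, Fintype.card_prod, hS, mul_comm, sq])
  set S' := S.filter (fun s => (a' s, b' s) = p) with hS'
  have hS'S : S' ⊆ S := Finset.filter_subset _ _
  have hcard : Fintype.card (Rw r w) ≤ Fintype.card S' := by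
    rw [Fintype.card_coe]
    exact hp
  obtain ⟨τ⟩ := Function.Embedding.nonempty_of_card_le hcard
  let σ : Rw r w ↪ κ := τ.trans (Function.Embedding.subtype _)
  have hσ : ∀ i, σ i ∈ S ∧ a' (σ i) = p.1 ∧ b' (σ i) = p.2 := by
    intro i
    have h1 := (τ i).2
    obtain ⟨h2, h3⟩ := Finset.mem_filter.1 h1
    exact ⟨h2, congrArg Prod.fst h3, congrArg Prod.snd h3⟩
  have hxy : p.1 ≠ p.2 := by
    obtain ⟨h1, h2, h3⟩ := hσ (none, true, ⟨0, by omega⟩)
    rw [← h2, ← h3]
    exact hsh.1 _ h1
  have hpat : ∀ R : Finset (Rw r w), ∃ e, e ∉ Set.range a ∧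
      ∀ i, u (σ i) e = if i ∈ R then p.2 else p.1 := by
    intro R
    obtain ⟨g, hg, hg2⟩ := hsh.2 (R.map σ) (by
      intro s hs
      obtain ⟨i, _, rfl⟩ := Finset.mem_map.1 hs
      exact (hσ i).1)
    obtain ⟨e, he, rfl⟩ := Finset.mem_image.1 hg
    refine ⟨e, hE e he, fun i => ?_⟩
    have h1 := hg2 (σ i) (hσ i).1
    have h2 : σ i ∈ R.map σ ↔ i ∈ R := Finset.mem_map' σ
    by_cases hi : i ∈ R
    · rw [if_pos (h2.2 hi), (hσ i).2.2] at h1
      rw [if_pos hi]
      exact h1
    · rw [if_neg (fun h => hi (h2.1 h)), (hσ i).2.1] at h1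
      rw [if_neg hi]
      exact h1
  obtain ⟨f, C, h1, h2⟩ := extract V a u ha huV hua hw σ p.1 p.2 hxy hpat c hc hm
  exact hno f C h1 h2

/-- Girth `k` forces few elements. -/
theorem girth_poly (q r m : ℕ) : ∃ K d : ℕ, ∀ (F : Type) [Field F] [Fintype F],
    Fintype.card F = q → ∀ (c : Fin r → Fin m → ℕ), (∀ j i, c j i ≤ q) →
    ∀ (n : ℕ) (V : Submodule F (Fin n → F)),
    (∀ (f : Fin m ↪ Fin n) (C : Set (Fin n)), (∀ j, f j ∉ C) →
      minor V f C ≠ rowSpace (fun j i => (c j i : F))) →
    ∀ k : ℕ, 3 ≤ k → (∀ v ∈ dual V, v ≠ 0 → k ≤ {x | v x ≠ 0}.ncard) →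
      (n - Module.finrank F V) * k ^ (d + 1) ≤ K * Module.finrank F V ^ (d + 1) := by
  classical
  obtain ⟨w, hw⟩ : ∃ w, w = q + m + 2 := ⟨_, rfl⟩
  obtain ⟨D, hD⟩ : ∃ D, D = Fintype.card (Rw r w) * q ^ 2 := ⟨_, rfl⟩
  obtain ⟨K, hK⟩ := code_poly q D
  refine ⟨K * 3 ^ D, D - 1, ?_⟩
  intro F _ _ hq c hc n V hno k hk hg
  have hq1 : 2 ≤ q := by
    rw [← hq]
    exact Fintype.one_lt_card
  have hRw : 0 < Fintype.card (Rw r w) := by
    rw [Fintype.card_pos_iff]
    exact ⟨(none, true, ⟨0, by omega⟩)⟩
  have hD1 : D - 1 + 1 = D := by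
    have : 0 < D := by
      rw [hD]
      positivity
    omega
  rw [hD1]
  obtain ⟨κ, _, _, a, u, ha, hcard, huV, hua, hwv⟩ := exists_coords V
  set cw : Fin n → κ → F := fun e i => u i e with hcw
  set E : Finset (Fin n) := Finset.univ.filter (fun e => e ∉ Set.range a) with hE
  have hcE : E.card = n - Fintype.card κ := by
    have h1 : E = Finset.univ \ (Finset.univ.image a) := by
      ext e
      simp [hE]
    rw [h1, Finset.card_sdiff_of_subset (Finset.subset_univ _),
      Finset.card_image_of_injective _ ha]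
    simp
  have hg' : ∀ v ∈ dual V, v ≠ 0 → k ≤ (supp v).card := by
    intro v hv hv0
    have h1 := hg v hv hv0
    have h2 : {x | v x ≠ 0} = ((supp v : Finset (Fin n)) : Set (Fin n)) := by
      ext x
      simp [supp]
    rw [h2, Set.ncard_coe_finset] at h1
    exact h1
  -- distances
  have hdist : ∀ e ∈ E, ∀ f ∈ E, e ≠ f →
      k ≤ (Finset.univ.filter (fun i => cw e i ≠ cw f i)).card + 2 := by
    intro e he f hf hef
    have he' : ∀ i, a i ≠ e := fun i h => (Finset.mem_filter.1 he).2 ⟨i, h⟩
    have hf' : ∀ i, a i ≠ f := fun i h => (Finset.mem_filter.1 hf).2 ⟨i, h⟩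
    let c : Fin n → F := fun x => (if x = e then 1 else 0) - (if x = f then 1 else 0)
      - ∑ i, if x = a i then (cw e i - cw f i) else 0
    have hce : c e = 1 := by
      show (if e = e then (1 : F) else 0) - (if e = f then 1 else 0)
        - (∑ i, if e = a i then (cw e i - cw f i) else 0) = 1
      rw [if_pos rfl, if_neg hef, Finset.sum_eq_zero]
      · ring
      · intro i _; rw [if_neg (fun h => he' i h.symm)]
    have hc0 : c ≠ 0 := fun h => by
      rw [h] at hce; exact zero_ne_one hce
    have hcd : c ∈ dual V := by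
      intro w hwV
      have h1 : ∑ x, w x * c x = w e - w f - ∑ i, w (a i) * (cw e i - cw f i) := by
        simp only [c, mul_sub, Finset.sum_sub_distrib, Finset.mul_sum]
        congr 1
        · congr 1
          · simp
          · simp
        · rw [Finset.sum_comm]
          simp [mul_sub, Finset.sum_sub_distrib]
      rw [h1, hwv w hwV e, hwv w hwV f, ← Finset.sum_sub_distrib, ← Finset.sum_sub_distrib]
      refine Finset.sum_eq_zero fun i _ => ?_
      simp only [cw]
      ring
    have h2 := hg' c hcd hc0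
    have h3 : supp c ⊆ insert e (insert f
        ((Finset.univ.filter (fun i => cw e i ≠ cw f i)).image a)) := by
      intro x hx
      have hx' : c x ≠ 0 := (Finset.mem_filter.1 hx).2
      simp only [Finset.mem_insert, Finset.mem_image, Finset.mem_filter, Finset.mem_univ, true_and]
      by_contra hno
      push Not at hno
      obtain ⟨h4, h5, h6⟩ := hno
      apply hx'
      simp only [c]
      rw [if_neg h4, if_neg h5, Finset.sum_eq_zero]
      · ring
      · intro i _
        split_ifs with h7
        · by_contra h8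
          exact h6 i (fun h9 => h8 (by rw [h9]; ring)) h7.symm
        · rfl
    have h4 := Finset.card_le_card h3
    have h5 := Finset.card_insert_le e (insert f
        ((Finset.univ.filter (fun i => cw e i ≠ cw f i)).image a))
    have h6 := Finset.card_insert_le f
        ((Finset.univ.filter (fun i => cw e i ≠ cw f i)).image a)
    have h7 : ((Finset.univ.filter (fun i => cw e i ≠ cw f i)).image a).card
        ≤ (Finset.univ.filter (fun i => cw e i ≠ cw f i)).card := Finset.card_image_le
    omega
  have hinj : Set.InjOn cw E := by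
    intro e he f hf h
    by_contra hef
    have := hdist e he f hf hef
    rw [h] at this
    simp at this
    omega
  -- the rank is large
  rcases Finset.eq_empty_or_nonempty E with hE0 | ⟨e₀, he₀⟩
  · have : n - Module.finrank F V = 0 := by
      rw [← hcard, ← hcE, hE0, Finset.card_empty]
    rw [this, zero_mul]
    exact Nat.zero_le _
  have hκ : k ≤ Fintype.card κ + 1 := by
    have he' : ∀ i, a i ≠ e₀ := fun i h => (Finset.mem_filter.1 he₀).2 ⟨i, h⟩
    let c : Fin n → F := fun x => (if x = e₀ then 1 else 0)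
      - ∑ i, if x = a i then cw e₀ i else 0
    have hce : c e₀ = 1 := by
      show (if e₀ = e₀ then (1 : F) else 0) - (∑ i, if e₀ = a i then cw e₀ i else 0) = 1
      rw [if_pos rfl, Finset.sum_eq_zero]
      · ring
      · intro i _; rw [if_neg (fun h => he' i h.symm)]
    have hc0 : c ≠ 0 := fun h => by
      rw [h] at hce; exact zero_ne_one hce
    have hcd : c ∈ dual V := by
      intro w hwV
      have h1 : ∑ x, w x * c x = w e₀ - ∑ i, w (a i) * cw e₀ i := by
        simp only [c, mul_sub, Finset.sum_sub_distrib, Finset.mul_sum]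
        congr 1
        · simp
        · rw [Finset.sum_comm]
          simp
      rw [h1, hwv w hwV e₀, ← Finset.sum_sub_distrib]
      refine Finset.sum_eq_zero fun i _ => ?_
      simp only [cw]
      ring
    have h2 := hg' c hcd hc0
    have h3 : supp c ⊆ insert e₀ ((Finset.univ : Finset κ).image a) := by
      intro x hx
      have hx' : c x ≠ 0 := (Finset.mem_filter.1 hx).2
      simp only [Finset.mem_insert, Finset.mem_image, Finset.mem_univ, true_and]
      by_contra hno
      push Not at hno
      obtain ⟨h4, h6⟩ := hno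
      apply hx'
      simp only [c]
      rw [if_neg h4, Finset.sum_eq_zero]
      · ring
      · intro i _
        rw [if_neg (fun h => h6 i h.symm)]
    have h4 := Finset.card_le_card h3
    have h5 := Finset.card_insert_le e₀ ((Finset.univ : Finset κ).image a)
    have h7 : ((Finset.univ : Finset κ).image a).card ≤ Fintype.card κ := Finset.card_image_le
    omega
  have hE' : ∀ e ∈ E, e ∉ Set.range a := fun e he => (Finset.mem_filter.1 he).2
  have htr : ∀ T : Finset κ, ((E.image cw).image (res T)).card ≤ (q ^ 2 * (T.card + 1)) ^ D := by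
    intro T
    have h := traces V a u ha huV hua hwv (r := r) (w := w) (m := m) c
      (fun j i => (hc j i).trans (by omega)) (by omega) hno E hE' T
    rw [hq, ← hD] at h
    exact h
  have hmain := hK κ F (E.image cw) (k - 2) hq (by omega) (by omega) htr (by
    intro x hx y hy hxy
    obtain ⟨e, he, rfl⟩ := Finset.mem_image.1 hx
    obtain ⟨f, hf, rfl⟩ := Finset.mem_image.1 hy
    have := hdist e he f hf (fun h => hxy (by rw [h]))
    omega)
  rw [Finset.card_image_of_injOn hinj, hcE, hcard] at hmain
  have h3 : k ^ D ≤ 3 ^ D * (k - 2) ^ D := by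
    rw [← mul_pow]
    exact Nat.pow_le_pow_left (by omega) D
  calc (n - Module.finrank F V) * k ^ D ≤ (n - Module.finrank F V) * (3 ^ D * (k - 2) ^ D) :=
        Nat.mul_le_mul_left _ h3
    _ = 3 ^ D * ((n - Module.finrank F V) * (k - 2) ^ D) := by ring
    _ ≤ 3 ^ D * (K * Module.finrank F V ^ D) := Nat.mul_le_mul_left _ hmain
    _ = _ := by ring

end Pool.Agent.LCN
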