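import Mathlib
import Pool.Agent.LCN.Gir
import Pool.Agent.LCN.Du

/-!
# Minor-closed classes which omit a matroid over the prime field
-/

namespace Pool.Agent.LCN

open Finset
open Pool.Agent.Helper39.TC

/-- The class contains arbitrarily long codes whose dimension and minimum distance are at least
`ε` times the length. -/
def AsymptoticallyGood {F : Type} [Field F] (𝓜 : MClass F) : Prop :=
  ∃ ε : ℝ, 0 < ε ∧ ∀ N : ℕ, ∃ n : ℕ, N ≤ n ∧ ∃ U : Submodule F (Fin n → F), 𝓜 n U ∧
    ε * n ≤ Module.finrank F U ∧ ∀ v ∈ U, v ≠ 0 → ε * n ≤ ({x | v x ≠ 0}.ncard : ℕ)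

/-- The matroid is represented by a matrix over the prime field of `F`. -/
def OverPrimeField {F : Type} [Field F] {n : ℕ} (U : Submodule F (Fin n → F)) : Prop :=
  ∃ (m : ℕ) (A : Matrix (Fin m) (Fin n) F), rowSpace A = U ∧ ∀ i j, A i j ∈ (⊥ : Subfield F)

/-- Large girth, large minimum distance and large connectivity have a price. -/
def PolyBound {F : Type} [Field F] (𝓜 : MClass F) : Prop :=
  ∃ C d : ℕ,
    (∀ (n : ℕ) (U : Submodule F (Fin n → F)), 𝓜 n U → ∀ k : ℕ, 3 ≤ k →
      (∀ v ∈ dual U, v ≠ 0 → k ≤ {x | v x ≠ 0}.ncard) →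
      (n - Module.finrank F U) * k ^ (d + 1) ≤ C * Module.finrank F U ^ (d + 1)) ∧
    (∀ (n : ℕ) (U : Submodule F (Fin n → F)), 𝓜 n U → ∀ k : ℕ, 3 ≤ k →
      (∀ v ∈ U, v ≠ 0 → k ≤ {x | v x ≠ 0}.ncard) →
      Module.finrank F U * k ^ (d + 1) ≤ C * (n - Module.finrank F U) ^ (d + 1)) ∧
    (∀ (n : ℕ) (U : Submodule F (Fin n → F)), 𝓜 n U → ∀ k : ℕ, TutteConn k U → 2 * k ≤ n →
      k ^ (d + 1) ≤ C * n ^ d)

variable {F : Type} [Field F]

theorem not_good {𝓜 : MClass F} (h : PolyBound 𝓜) : ¬ AsymptoticallyGood 𝓜 := by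
  obtain ⟨C, d, -, h, -⟩ := h
  rintro ⟨ε, hε, hg⟩
  obtain ⟨N, hN⟩ := exists_nat_gt (max (3 / ε) (C / ε ^ (d + 2)))
  obtain ⟨n, hn, U, hU, h1, h2⟩ := hg N
  have hNn : (N : ℝ) ≤ n := by exact_mod_cast hn
  have hn3 : 3 / ε < n := ((le_max_left _ _).trans_lt hN).trans_le hNn
  have hnC : C / ε ^ (d + 2) < n := ((le_max_right _ _).trans_lt hN).trans_le hNn
  rw [div_lt_iff₀ hε] at hn3
  rw [div_lt_iff₀ (by positivity)] at hnC
  have hn0 : (0 : ℝ) < n := by
    rcases Nat.eq_zero_or_pos n with h0 | h0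
    · rw [h0, Nat.cast_zero, zero_mul] at hn3
      linarith
    · exact_mod_cast h0
  set k : ℕ := ⌈ε * n⌉₊ with hk
  have hk3 : 3 ≤ k := by
    have h3 : (3 : ℝ) ≤ k := by
      refine le_trans ?_ (Nat.le_ceil _)
      linarith
    exact_mod_cast h3
  have hkn : ε * n ≤ k := Nat.le_ceil _
  have h4 := h n U hU k hk3 (fun v hv hv0 => Nat.ceil_le.2 (h2 v hv hv0))
  set r := Module.finrank F U with hr
  have h5 : (r : ℝ) * (k : ℝ) ^ (d + 1) ≤ C * ((n - r : ℕ) : ℝ) ^ (d + 1) := by exact_mod_cast h4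
  have h6 : ((n - r : ℕ) : ℝ) ≤ n := by exact_mod_cast Nat.sub_le n r
  have h7 : (ε * n) * (ε * n) ^ (d + 1) ≤ C * (n : ℝ) ^ (d + 1) := by
    calc (ε * n) * (ε * n) ^ (d + 1) ≤ (r : ℝ) * (k : ℝ) ^ (d + 1) := by
          refine mul_le_mul h1 (pow_le_pow_left₀ (by positivity) hkn _) (by positivity)
            (Nat.cast_nonneg _)
      _ ≤ C * ((n - r : ℕ) : ℝ) ^ (d + 1) := h5
      _ ≤ C * (n : ℝ) ^ (d + 1) := by
          refine mul_le_mul_of_nonneg_left ?_ (Nat.cast_nonneg _)
          exact pow_le_pow_left₀ (Nat.cast_nonneg _) h6 _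
  have h8 : (n * ε ^ (d + 2)) * (n : ℝ) ^ (d + 1) ≤ C * (n : ℝ) ^ (d + 1) := by
    refine le_trans (le_of_eq ?_) h7
    rw [mul_pow]
    ring
  have h9 := le_of_mul_le_mul_right h8 (by positivity)
  linarith

variable [Finite F]

theorem poly_bound (𝓜 : MClass F) (hclosed : MinorClosed 𝓜)
    (homit : ∃ (r m : ℕ) (A : Matrix (Fin r) (Fin m) F),
      (∀ i j, A i j ∈ (⊥ : Subfield F)) ∧ ¬ 𝓜 m (rowSpace A)) : PolyBound 𝓜 := by
  classical
  have : Fintype F := Fintype.ofFinite F
  obtain ⟨r, m, A, hA, hno⟩ := homit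
  obtain ⟨r', A', hA', hAA'⟩ := dual_subfield ⊥ A hA
  -- natural number entries
  have hnat : ∀ {r m : ℕ} (A : Matrix (Fin r) (Fin m) F), (∀ i j, A i j ∈ (⊥ : Subfield F)) →
      ∃ c : Fin r → Fin m → ℕ, (∀ i j, c i j ≤ Fintype.card F) ∧
        (fun i j => (c i j : F)) = A := by
    intro r m A hA
    choose c hc1 hc2 using fun i j => exists_nat (hA i j)
    exact ⟨c, hc1, by funext i j; exact hc2 i j⟩
  obtain ⟨c, hc1, hc2⟩ := hnat A hA
  obtain ⟨c', hc1', hc2'⟩ := hnat A' hA'
  obtain ⟨K, d, hK⟩ := girth_poly (Fintype.card F) r m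
  obtain ⟨K', d', hK'⟩ := girth_poly (Fintype.card F) r' m
  -- a common exponent: `k ≤ rank + 1` whenever there is something to prove
  have lift : ∀ (x R k K e e' : ℕ), e ≤ e' → (1 ≤ x → k ≤ R + 1) → 3 ≤ k →
      x * k ^ (e + 1) ≤ K * R ^ (e + 1) → x * k ^ (e' + 1) ≤ (K * 2 ^ (e' + 1)) * R ^ (e' + 1) := by
    intro x R k K e e' hee hx hk h
    rcases Nat.eq_zero_or_pos x with h0 | h0
    · rw [h0, zero_mul]
      exact Nat.zero_le _
    have hR : k ≤ 2 * R := by
      have := hx h0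
      omega
    obtain ⟨s, hs⟩ : ∃ s, e' = e + s := ⟨e' - e, by omega⟩
    subst hs
    calc x * k ^ (e + s + 1) = (x * k ^ (e + 1)) * k ^ s := by ring
      _ ≤ (K * R ^ (e + 1)) * (2 * R) ^ s := Nat.mul_le_mul h (Nat.pow_le_pow_left hR s)
      _ = K * 2 ^ s * R ^ (e + s + 1) := by
          rw [mul_pow]
          ring
      _ ≤ _ := by
          refine Nat.mul_le_mul_right _ (Nat.mul_le_mul_left _ ?_)
          exact Nat.pow_le_pow_right (by norm_num) (by omega)
  -- the rank of a matroid of large girth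
  have rank_large : ∀ (n : ℕ) (V : Submodule F (Fin n → F)) (k : ℕ),
      (∀ v ∈ dual V, v ≠ 0 → k ≤ {x | v x ≠ 0}.ncard) → 1 ≤ n - Module.finrank F V →
      k ≤ Module.finrank F V + 1 := by
    intro n V k hg hn
    -- a circuit inside a set of rank + 1 elements
    have hlt : Module.finrank F V + 1 ≤ n := by omega
    let X : Finset (Fin n) := (univ : Finset (Fin n)).filter (fun x => x.val < Module.finrank F V + 1)
    have hX : X.card = Module.finrank F V + 1 := card_lt_fin hlt
    by_contra hcon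
    push Not at hcon
    have h1 : rk V X = X.card := by
      refine rk_eq_card V X ?_
      intro c hc
      by_contra hc0
      let v : Fin n → F := fun x => if hx : x ∈ X then c ⟨x, hx⟩ else 0
      have hv0 : v ≠ 0 := by
        intro h
        apply hc0
        funext x
        have h2 := congrFun h (x : Fin n)
        simpa [v, x.2] using h2
      have hvd : v ∈ dual V := by
        intro u hu
        rw [← hc u hu, ← Finset.sum_subset (Finset.subset_univ X), ← Finset.sum_coe_sort X]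
        · refine Finset.sum_congr rfl fun x _ => ?_
          have : v (x : Fin n) = c x := by simp [v, x.2]
          rw [this, mul_comm]
        · intro x _ hx
          have : v x = 0 := by simp [v, hx]
          rw [this, mul_zero]
      have h2 := hg v hvd hv0
      have h3 : {x | v x ≠ 0} ⊆ (X : Set (Fin n)) := by
        intro x hx
        by_contra hxX
        exact hx (by simp [v, show x ∉ X from hxX])
      have h4 := Set.ncard_le_ncard h3 (Finset.finite_toSet X)
      rw [Set.ncard_coe_finset, hX] at h4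
      omega
    have h2 := rk_le_finrank V X
    omega
  set D := max d d' with hD
  set C₁ := (K + K') * 2 ^ (D + 1) with hC₁
  have e1 : ∀ (n : ℕ) (U : Submodule F (Fin n → F)), 𝓜 n U → ∀ k : ℕ, 3 ≤ k →
      (∀ v ∈ dual U, v ≠ 0 → k ≤ {x | v x ≠ 0}.ncard) →
      (n - Module.finrank F U) * k ^ (D + 1) ≤ C₁ * Module.finrank F U ^ (D + 1) := by
    intro n U hU k hk hg
    have h1 := hK F rfl c hc1 n U (by
      intro f S hf h
      rw [hc2] at h
      exact hno (h ▸ hclosed n U hU m f S hf)) k hk hg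
    have h2 := lift _ _ _ _ _ D (le_max_left _ _) (rank_large n U k hg) hk h1
    refine h2.trans (Nat.mul_le_mul_right _ (Nat.mul_le_mul_right _ (by omega)))
  have e2 : ∀ (n : ℕ) (U : Submodule F (Fin n → F)), 𝓜 n U → ∀ k : ℕ, 3 ≤ k →
      (∀ v ∈ U, v ≠ 0 → k ≤ {x | v x ≠ 0}.ncard) →
      Module.finrank F U * k ^ (D + 1) ≤ C₁ * (n - Module.finrank F U) ^ (D + 1) := by
    intro n U hU k hk hg
    have hdim := finrank_dual U
    have hg' : ∀ v ∈ dual (dual U), v ≠ 0 → k ≤ {x | v x ≠ 0}.ncard := by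
      rw [dual_dual]
      exact hg
    have h1 := hK' F rfl c' hc1' n (dual U) (by
      intro f S hf h
      rw [hc2', hAA'] at h
      have h3 : rowSpace A = dual (minor (dual U) f S) := by rw [h, dual_dual]
      rw [dual_minor (dual U) f S hf, dual_dual] at h3
      refine hno ?_
      rw [h3]
      exact hclosed n U hU m f _ (fun j hj => hj.1 ⟨j, rfl⟩)) k hk hg'
    have h2 := lift _ _ _ _ _ D (le_max_right _ _) (rank_large n (dual U) k hg') hk h1
    have e3 : n - Module.finrank F (dual U) = Module.finrank F U := by omega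
    have e4 : Module.finrank F (dual U) = n - Module.finrank F U := by omega
    rw [e3, e4] at h2
    refine h2.trans (Nat.mul_le_mul_right _ (Nat.mul_le_mul_right _ (by omega)))
  refine ⟨2 * C₁ + 2 ^ (D + 1), D, ?_, ?_, ?_⟩
  · intro n U hU k hk hg
    exact (e1 n U hU k hk hg).trans (Nat.mul_le_mul_right _
      (le_trans (by omega : C₁ ≤ 2 * C₁) (Nat.le_add_right _ _)))
  · intro n U hU k hk hg
    exact (e2 n U hU k hk hg).trans (Nat.mul_le_mul_right _
      (le_trans (by omega : C₁ ≤ 2 * C₁) (Nat.le_add_right _ _)))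
  · intro n U hU k hconn hn
    rcases Nat.eq_zero_or_pos n with h0 | h0
    · have : k = 0 := by omega
      rw [this, zero_pow (by omega)]
      exact Nat.zero_le _
    rcases Nat.lt_or_ge k 3 with hk | hk
    · calc k ^ (D + 1) ≤ 2 ^ (D + 1) := Nat.pow_le_pow_left (by omega) _
        _ = 2 ^ (D + 1) * 1 := (mul_one _).symm
        _ ≤ (2 * C₁ + 2 ^ (D + 1)) * n ^ D :=
            Nat.mul_le_mul (by omega) (Nat.one_le_pow _ _ h0)
    · have hdim := finrank_dual U
      have hsupp : ∀ v : Fin n → F, {x | v x ≠ 0}.ncard = (supp v).card := by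
        intro v
        have h2 : {x | v x ≠ 0} = ((supp v : Finset (Fin n)) : Set (Fin n)) := by
          ext x
          simp [supp]
        rw [h2, Set.ncard_coe_finset]
      have g1 := e1 n U hU k hk (fun v hv hv0 => by
        rw [hsupp]
        exact girth_of_conn U hn hconn v hv hv0)
      have g2 := e2 n U hU k hk (fun v hv hv0 => by
        rw [hsupp]
        exact cogirth_of_conn U hn hconn v hv hv0)
      have key : ∀ x R : ℕ, n ≤ 2 * x → R ≤ n → x * k ^ (D + 1) ≤ C₁ * R ^ (D + 1) →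
          k ^ (D + 1) ≤ 2 * C₁ * n ^ D := by
        intro x R hx hR h
        have h1 : n * k ^ (D + 1) ≤ n * (2 * C₁ * n ^ D) := by
          calc n * k ^ (D + 1) ≤ (2 * x) * k ^ (D + 1) := Nat.mul_le_mul_right _ hx
            _ = 2 * (x * k ^ (D + 1)) := by ring
            _ ≤ 2 * (C₁ * R ^ (D + 1)) := Nat.mul_le_mul_left _ h
            _ ≤ 2 * (C₁ * n ^ (D + 1)) :=
                Nat.mul_le_mul_left _ (Nat.mul_le_mul_left _ (Nat.pow_le_pow_left hR _))
            _ = n * (2 * C₁ * n ^ D) := by ring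
        exact Nat.le_of_mul_le_mul_left h1 h0
      have hfin : k ^ (D + 1) ≤ 2 * C₁ * n ^ D := by
        rcases le_total n (2 * Module.finrank F U) with h | h
        · exact key _ _ h (Nat.sub_le _ _) g2
        · exact key _ _ (by omega) (by omega) g1
      exact hfin.trans (Nat.mul_le_mul_right _ (Nat.le_add_right _ _))

omit [Finite F] in
/-- Over a prime field every matroid is a matroid over the prime field. -/
theorem overPrimeField_of_prime (hF : (⊥ : Subfield F) = ⊤) {n : ℕ}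
    (U : Submodule F (Fin n → F)) : OverPrimeField U := by
  obtain ⟨P, hP⟩ := exists_rowSpace U
  refine ⟨n, P, hP, fun i j => ?_⟩
  rw [hF]
  exact Subfield.mem_top _

theorem main (𝓜 : MClass F) (hclosed : MinorClosed 𝓜)
    (homit : ∃ (n : ℕ) (U : Submodule F (Fin n → F)), OverPrimeField U ∧ ¬ 𝓜 n U) :
    PolyBound 𝓜 ∧ ¬ AsymptoticallyGood 𝓜 := by
  obtain ⟨n, U, ⟨m, A, hA, hA'⟩, hU⟩ := homit
  have h := poly_bound 𝓜 hclosed ⟨m, n, A, hA', by rw [hA]; exact hU⟩
  exact ⟨h, not_good h⟩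

end Pool.Agent.LCN
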